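import Mathlib

namespace Pool.Agent.H218.BiEmb

/-- Relational data: a strict partial order `lt`, a binary relation `R`, monotone colour
predicates `U n` (colour at most `n`; colours increase along `lt`) and an up-closed
predicate `E`. -/
structure RS (M : Type) where
  lt : M → M → Prop
  R : M → M → Prop
  U : ℕ → M → Prop
  E : M → Prop
  irr : ∀ x, ¬ lt x x
  tr : ∀ x y z, lt x y → lt y z → lt x z
  Um : ∀ n x, U n x → U (n + 1) x
  Ult : ∀ n x y, lt x y → U n y → U n x
  Elt : ∀ x y, lt x y → E x → E y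

variable {M N F : Type}

theorem RS.Um' (S : RS M) {m n : ℕ} (h : m ≤ n) {x : M} (hx : S.U m x) : S.U n x := by
  induction n, h using Nat.le_induction with
  | base => exact hx
  | succ n _ ih => exact S.Um n x ih

/-- `x` has infinite colour. -/
def RS.W (S : RS M) (x : M) : Prop := ∀ m, ¬ S.U m x

/-- One pair of the level-`n` equivalence. -/
def Rel1 (n : ℕ) (S : RS M) (T : RS N) (p q : M × N) : Prop :=
  (p.1 = q.1 ↔ p.2 = q.2) ∧ (S.lt p.1 q.1 ↔ T.lt p.2 q.2) ∧ (S.R p.1 q.1 ↔ T.R p.2 q.2) ∧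
    (∀ m < n, (S.U m p.1 ↔ T.U m p.2)) ∧ (S.E p.1 ↔ T.E p.2)

/-- Level-`n` partial isomorphism. -/
def PE (n : ℕ) (S : RS M) (T : RS N) (P : Set (M × N)) : Prop :=
  ∀ p ∈ P, ∀ q ∈ P, Rel1 n S T p q

theorem PE.mono {n m : ℕ} (h : m ≤ n) {S : RS M} {T : RS N} {P : Set (M × N)}
    (hP : PE n S T P) : PE m S T P := fun p hp q hq => by
  obtain ⟨h1, h2, h3, h4, h5⟩ := hP p hp q hq
  exact ⟨h1, h2, h3, fun k hk => h4 k (by omega), h5⟩

theorem PE.subset {n : ℕ} {S : RS M} {T : RS N} {P Q : Set (M × N)} (h : Q ⊆ P)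
    (hP : PE n S T P) : PE n S T Q := fun p hp q hq => hP p (h hp) q (h hq)

theorem PE.swap {n : ℕ} {S : RS M} {T : RS N} {P : Set (M × N)}
    (hP : PE n S T P) : PE n T S (Prod.swap '' P) := by
  rintro _ ⟨p, hp, rfl⟩ _ ⟨q, hq, rfl⟩
  obtain ⟨h1, h2, h3, h4, h5⟩ := hP p hp q hq
  exact ⟨h1.symm, h2.symm, h3.symm, fun k hk => (h4 k hk).symm, h5.symm⟩

/-- The extension property. -/
def Good (T : RS N) : Prop :=
  ∀ (F : Type) (S : RS F) (n : ℕ) (P : Set (F × N)), P.Finite → PE n S T P →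
    ∀ c, ∃ d, PE n S T (insert (c, d) P)

/-! ### adding one point -/

section add

variable (S : RS M) (x : M) (B C Ri Ro : Set M) (rr : Prop) (p : ℕ) (ex e : Prop)

/-- validity of a request -/
structure Valid : Prop where
  hx : ∀ u, ¬ S.lt u x ∧ ¬ S.lt x u
  xB : x ∉ B
  xC : x ∉ C
  bc : ∀ b ∈ B, ∀ c ∈ C, S.lt b c
  exB : ex → ∀ b ∈ B, S.U p b
  cC : ∀ c ∈ C, ∀ m < p, ¬ S.U m c
  eB : ∀ b ∈ B, S.E b → e
  eC : e → ∀ c ∈ C, S.E c

def addLt (u v : M) : Prop :=
  S.lt u v ∨ (v = x ∧ ∃ b ∈ B, u = b ∨ S.lt u b) ∨ (u = x ∧ ∃ c ∈ C, v = c ∨ S.lt c v)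

def addR (u v : M) : Prop :=
  (u ≠ x ∧ v ≠ x ∧ S.R u v) ∨ (u ≠ x ∧ v = x ∧ u ∈ Ri) ∨ (u = x ∧ v ≠ x ∧ v ∈ Ro) ∨
    (u = x ∧ v = x ∧ rr)

def addU (m : ℕ) (u : M) : Prop :=
  (u ≠ x ∧ S.U m u) ∨ (u = x ∧ p ≤ m ∧ (ex ∨ ∀ b ∈ B, S.U m b))

def addE (u : M) : Prop := (u ≠ x ∧ S.E u) ∨ (u = x ∧ e)

variable {S x B C Ri Ro rr p ex e}

theorem addLt_old (u v : M) (hu : u ≠ x) (hv : v ≠ x) : addLt S x B C u v ↔ S.lt u v := by
  unfold addLt
  constructor
  · rintro (h | ⟨h, _⟩ | ⟨h, _⟩)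
    · exact h
    · exact absurd h hv
    · exact absurd h hu
  · exact fun h => Or.inl h

def addRS (h : Valid S x B C p ex e) (Ri Ro : Set M) (rr : Prop) : RS M where
  lt := addLt S x B C
  R := addR S x Ri Ro rr
  U := addU S x B p ex
  E := addE S x e
  irr := by
    rintro u (h1 | ⟨rfl, b, hb, (rfl | h2)⟩ | ⟨rfl, c, hc, (rfl | h2)⟩)
    · exact S.irr u h1
    · exact h.xB hb
    · exact (h.hx b).2 h2
    · exact h.xC hc
    · exact (h.hx c).1 h2
  tr := by
    rintro u v w (h1 | ⟨rfl, b, hb, h2⟩ | ⟨rfl, c, hc, h2⟩)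
      (h3 | ⟨rfl, b', hb', h4⟩ | ⟨h5, c', hc', h4⟩)
    · exact Or.inl (S.tr _ _ _ h1 h3)
    · right; left
      refine ⟨rfl, b', hb', Or.inr ?_⟩
      rcases h4 with rfl | h4
      · exact h1
      · exact S.tr _ _ _ h1 h4
    · subst h5
      exact absurd h1 (h.hx u).1
    · exact absurd h3 (h.hx w).2
    · rcases h4 with h4 | h4
      · exact absurd (h4 ▸ hb') h.xB
      · exact absurd h4 (h.hx b').2
    · left
      have hbc := h.bc b hb c' hc'
      have h6 : S.lt u c' := by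
        rcases h2 with rfl | h2
        · exact hbc
        · exact S.tr _ _ _ h2 hbc
      rcases h4 with rfl | h4
      · exact h6
      · exact S.tr _ _ _ h6 h4
    · right; right
      refine ⟨rfl, c, hc, Or.inr ?_⟩
      rcases h2 with rfl | h2
      · exact h3
      · exact S.tr _ _ _ h2 h3
    · -- u = x < v, v < x : impossible
      exfalso
      have hbc := h.bc b' hb' c hc
      have h6 : S.lt c b' ∨ c = b' := by
        rcases h2 with rfl | h2
        · rcases h4 with rfl | h4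
          · exact Or.inr rfl
          · exact Or.inl h4
        · rcases h4 with rfl | h4
          · exact Or.inl h2
          · exact Or.inl (S.tr _ _ _ h2 h4)
      rcases h6 with h6 | rfl
      · exact S.irr _ (S.tr _ _ _ h6 hbc)
      · exact S.irr _ hbc
    · -- v = x , so x < x
      subst h5
      rcases h2 with h2 | h2
      · exact absurd (h2 ▸ hc) h.xC
      · exact absurd h2 (h.hx c).1
  Um := by
    rintro m u (⟨h1, h2⟩ | ⟨h1, h2, h3⟩)
    · exact Or.inl ⟨h1, S.Um _ _ h2⟩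
    · right
      refine ⟨h1, by omega, ?_⟩
      rcases h3 with h3 | h3
      · exact Or.inl h3
      · exact Or.inr fun b hb => S.Um _ _ (h3 b hb)
  Ult := by
    rintro m u v (h1 | ⟨rfl, b, hb, h2⟩ | ⟨rfl, c, hc, h2⟩) hU
    · have hux : u ≠ x := by rintro rfl; exact (h.hx v).2 h1
      have hvx : v ≠ x := by rintro rfl; exact (h.hx u).1 h1
      rcases hU with ⟨_, hU⟩ | ⟨hU, _⟩
      · exact Or.inl ⟨hux, S.Ult _ _ _ h1 hU⟩
      · exact absurd hU hvx
    · have hux : u ≠ v := by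
        rintro rfl
        rcases h2 with rfl | h2
        · exact h.xB hb
        · exact (h.hx b).2 h2
      rcases hU with ⟨h3, _⟩ | ⟨_, h3, h4⟩
      · exact absurd rfl h3
      · have h5 : S.U m b := by
          rcases h4 with h4 | h4
          · exact S.Um' h3 (h.exB h4 b hb)
          · exact h4 b hb
        refine Or.inl ⟨hux, ?_⟩
        rcases h2 with rfl | h2
        · exact h5
        · exact S.Ult _ _ _ h2 h5
    · have hvx : v ≠ u := by
        rintro rfl
        rcases h2 with rfl | h2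
        · exact h.xC hc
        · exact (h.hx c).1 h2
      rcases hU with ⟨_, hU⟩ | ⟨h3, _⟩
      · have h5 : S.U m c := by
          rcases h2 with rfl | h2
          · exact hU
          · exact S.Ult _ _ _ h2 hU
        refine Or.inr ⟨rfl, ?_, ?_⟩
        · by_contra hlt
          exact h.cC c hc m (by omega) h5
        · right
          intro b hb
          exact S.Ult _ _ _ (h.bc b hb c hc) h5
      · exact absurd h3 hvx
  Elt := by
    rintro u v (h1 | ⟨rfl, b, hb, h2⟩ | ⟨rfl, c, hc, h2⟩) hE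
    · have hux : u ≠ x := by rintro rfl; exact (h.hx v).2 h1
      have hvx : v ≠ x := by rintro rfl; exact (h.hx u).1 h1
      rcases hE with ⟨_, hE⟩ | ⟨hE, _⟩
      · exact Or.inl ⟨hvx, S.Elt _ _ h1 hE⟩
      · exact absurd hE hux
    · have hux : u ≠ v := by
        rintro rfl
        rcases h2 with rfl | h2
        · exact h.xB hb
        · exact (h.hx b).2 h2
      rcases hE with ⟨_, hE⟩ | ⟨h3, _⟩
      · have h5 : S.E b := by
          rcases h2 with rfl | h2
          · exact hE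
          · exact S.Elt _ _ h2 hE
        exact Or.inr ⟨rfl, h.eB b hb h5⟩
      · exact absurd h3 hux
    · have hvx : v ≠ u := by
        rintro rfl
        rcases h2 with rfl | h2
        · exact h.xC hc
        · exact (h.hx c).1 h2
      rcases hE with ⟨h3, _⟩ | ⟨_, h3⟩
      · exact absurd rfl h3
      · have h5 : S.E c := h.eC h3 c hc
        refine Or.inl ⟨hvx, ?_⟩
        rcases h2 with rfl | h2
        · exact h5
        · exact S.Elt _ _ h2 h5

end add

/-! ### the free completion -/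

abbrev Req (α : Type) : Type :=
  Finset α × Finset α × Finset α × Finset α × Bool × ℕ × Bool × Bool

def rk {P : Type} : P ⊕ ℕ → ℕ
  | Sum.inl _ => 0
  | Sum.inr i => i + 1

/-- A stage: relational data supported on the points of rank at most `s`. -/
structure Stage (P : Type) (s : ℕ) where
  S : RS (P ⊕ ℕ)
  supp : ∀ u v, S.lt u v → rk u ≤ s ∧ rk v ≤ s

def base0 {P : Type} (b : RS P) : RS (P ⊕ ℕ) where
  lt u v := ∃ x y, u = Sum.inl x ∧ v = Sum.inl y ∧ b.lt x y
  R u v := ∃ x y, u = Sum.inl x ∧ v = Sum.inl y ∧ b.R x y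
  U m u := ∃ x, u = Sum.inl x ∧ b.U m x
  E u := ∃ x, u = Sum.inl x ∧ b.E x
  irr := by
    rintro _ ⟨x, y, rfl, h, h2⟩
    obtain rfl := Sum.inl_injective h
    exact b.irr _ h2
  tr := by
    rintro _ _ _ ⟨x, y, rfl, rfl, h1⟩ ⟨x', z, h, rfl, h2⟩
    obtain rfl := Sum.inl_injective h
    exact ⟨x, z, rfl, rfl, b.tr _ _ _ h1 h2⟩
  Um := by
    rintro n _ ⟨x, rfl, h⟩
    exact ⟨x, rfl, b.Um _ _ h⟩
  Ult := by
    rintro n _ _ ⟨x, y, rfl, rfl, h1⟩ ⟨y', h, h2⟩
    obtain rfl := Sum.inl_injective h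
    exact ⟨x, rfl, b.Ult _ _ _ h1 h2⟩
  Elt := by
    rintro _ _ ⟨x, y, rfl, rfl, h1⟩ ⟨x', h, h2⟩
    obtain rfl := Sum.inl_injective h
    exact ⟨y, rfl, b.Elt _ _ h1 h2⟩

open Classical in
/-- validity of a request at a stage -/
def RV {P : Type} (s : ℕ) (S : RS (P ⊕ ℕ)) (r : Req (P ⊕ ℕ)) : Prop :=
  Valid S (Sum.inr s) (↑r.1) (↑r.2.1) r.2.2.2.2.2.1 (r.2.2.2.2.2.2.1 = true)
      (r.2.2.2.2.2.2.2 = true) ∧ (∀ b ∈ r.1, rk b ≤ s) ∧ (∀ c ∈ r.2.1, rk c ≤ s)

theorem valid_triv {P : Type} {s : ℕ} (St : Stage P s) :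
    Valid St.S (Sum.inr s) ∅ ∅ 0 True False where
  hx u := ⟨fun h => by have := (St.supp _ _ h).2; simp [rk] at this,
    fun h => by have := (St.supp _ _ h).1; simp [rk] at this⟩
  xB := by simp
  xC := by simp
  bc := by simp
  exB := by simp
  cC := by simp
  eB := by simp
  eC := by simp

open Classical in
noncomputable def nextS {P : Type} {s : ℕ} (St : Stage P s) (r : Req (P ⊕ ℕ)) : RS (P ⊕ ℕ) :=
  if h : RV s St.S r then
    addRS h.1 (↑r.2.2.1) (↑r.2.2.2.1) (r.2.2.2.2.1 = true)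
  else addRS (valid_triv St) ∅ ∅ False

theorem addRS_supp {P : Type} {s : ℕ} (St : Stage P s) {B C : Set (P ⊕ ℕ)} {p : ℕ}
    {ex e : Prop} (h : Valid St.S (Sum.inr s) B C p ex e) (Ri Ro : Set (P ⊕ ℕ)) (rr : Prop)
    (hB : ∀ b ∈ B, rk b ≤ s) (hC : ∀ c ∈ C, rk c ≤ s) :
    ∀ u v, (addRS h Ri Ro rr).lt u v → rk u ≤ s + 1 ∧ rk v ≤ s + 1 := by
  rintro u v (h1 | ⟨rfl, b, hb, h2⟩ | ⟨rfl, c, hc, h2⟩)
  · have := St.supp _ _ h1
    omega
  · refine ⟨?_, le_refl _⟩
    rcases h2 with rfl | h2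
    · have := hB _ hb; omega
    · have := (St.supp _ _ h2).1; omega
  · refine ⟨le_refl _, ?_⟩
    rcases h2 with rfl | h2
    · have := hC _ hc; omega
    · have := (St.supp _ _ h2).2; omega

noncomputable def nextStage {P : Type} {s : ℕ} (St : Stage P s) (r : Req (P ⊕ ℕ)) :
    Stage P (s + 1) where
  S := nextS St r
  supp := by
    unfold nextS
    split_ifs with h
    · exact addRS_supp St h.1 _ _ _ (by simpa using h.2.1) (by simpa using h.2.2)
    · exact addRS_supp St (valid_triv St) _ _ _ (by simp) (by simp)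

noncomputable def stages {P : Type} (b : RS P) (req : ℕ → Req (P ⊕ ℕ)) :
    (s : ℕ) → Stage P s
  | 0 => ⟨base0 b, by
      rintro _ _ ⟨x, y, rfl, rfl, _⟩
      simp [rk]⟩
  | s + 1 => nextStage (stages b req s) (req s)

/-- `S'` agrees with `S` on the points other than `x`. -/
def Agree (D : M → Prop) (S S' : RS M) : Prop :=
  (∀ u v, D u → D v → (S'.lt u v ↔ S.lt u v)) ∧ (∀ u v, D u → D v → (S'.R u v ↔ S.R u v)) ∧
    (∀ m u, D u → (S'.U m u ↔ S.U m u)) ∧ (∀ u, D u → (S'.E u ↔ S.E u))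

theorem agree_addRS {S : RS M} {x : M} {B C : Set M} {p : ℕ} {ex e : Prop}
    (h : Valid S x B C p ex e) (Ri Ro : Set M) (rr : Prop) :
    Agree (fun u => u ≠ x) S (addRS h Ri Ro rr) := by
  refine ⟨fun u v hu hv => addLt_old u v hu hv, fun u v hu hv => ?_, fun m u hu => ?_,
    fun u hu => ?_⟩
  · change addR S x Ri Ro rr u v ↔ _
    unfold addR
    simp only [ne_eq] at hu hv
    simp [hu, hv]
  · change addU S x B p ex m u ↔ _
    unfold addU
    simp only [ne_eq] at hu
    simp [hu]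
  · change addE S x e u ↔ _
    unfold addE
    simp only [ne_eq] at hu
    simp [hu]

theorem agree_next {P : Type} {s : ℕ} (St : Stage P s) (r : Req (P ⊕ ℕ)) :
    Agree (fun u => rk u ≤ s) St.S (nextStage St r).S := by
  have key : ∀ S', Agree (fun u => u ≠ Sum.inr s) St.S S' →
      Agree (fun u => rk u ≤ s) St.S S' := by
    rintro S' ⟨h1, h2, h3, h4⟩
    have hne : ∀ u : P ⊕ ℕ, rk u ≤ s → u ≠ Sum.inr s := by
      rintro u hu rfl
      simp [rk] at hu
    exact ⟨fun u v hu hv => h1 u v (hne _ hu) (hne _ hv),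
      fun u v hu hv => h2 u v (hne _ hu) (hne _ hv), fun m u hu => h3 m u (hne _ hu),
      fun u hu => h4 u (hne _ hu)⟩
  apply key
  change Agree _ _ (nextS St r)
  unfold nextS
  split_ifs with h
  · exact agree_addRS _ _ _ _
  · exact agree_addRS _ _ _ _

theorem agree_stages {P : Type} (b : RS P) (req : ℕ → Req (P ⊕ ℕ)) {s t : ℕ} (hst : s ≤ t) :
    Agree (fun u => rk u ≤ s) (stages b req s).S (stages b req t).S := by
  induction t, hst using Nat.le_induction with
  | base => exact ⟨fun _ _ _ _ => Iff.rfl, fun _ _ _ _ => Iff.rfl, fun _ _ _ => Iff.rfl,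
      fun _ _ => Iff.rfl⟩
  | succ t hst ih =>
    obtain ⟨h1, h2, h3, h4⟩ := ih
    obtain ⟨g1, g2, g3, g4⟩ := agree_next (stages b req t) (req t)
    refine ⟨fun u v hu hv => ?_, fun u v hu hv => ?_, fun m u hu => ?_, fun u hu => ?_⟩
    · exact (g1 u v (by omega) (by omega)).trans (h1 u v hu hv)
    · exact (g2 u v (by omega) (by omega)).trans (h2 u v hu hv)
    · exact (g3 m u (by omega)).trans (h3 m u hu)
    · exact (g4 u (by omega)).trans (h4 u hu)

section lim

variable {P : Type} (b : RS P) (req : ℕ → Req (P ⊕ ℕ))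

/-- the union of the stages -/
noncomputable def lim : RS (P ⊕ ℕ) where
  lt u v := (stages b req (max (rk u) (rk v))).S.lt u v
  R u v := (stages b req (max (rk u) (rk v))).S.R u v
  U m u := (stages b req (rk u)).S.U m u
  E u := (stages b req (rk u)).S.E u
  irr u := (stages b req _).S.irr u
  tr u v w h1 h2 := by
    have a1 := ((agree_stages b req (s := max (rk u) (rk v))
      (t := max (max (rk u) (rk v)) (rk w)) (by omega)).1 u v (by simp) (by simp)).2 h1
    have a2 := ((agree_stages b req (s := max (rk v) (rk w))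
      (t := max (max (rk u) (rk v)) (rk w)) (by omega)).1 v w (by simp) (by simp)).2 h2
    have a3 := (stages b req _).S.tr _ _ _ a1 a2
    exact ((agree_stages b req (s := max (rk u) (rk w))
      (t := max (max (rk u) (rk v)) (rk w)) (by omega)).1 u w (by simp) (by simp)).1 a3
  Um n x h := (stages b req _).S.Um _ _ h
  Ult n x y h1 h2 := by
    have a2 := ((agree_stages b req (s := rk y) (t := max (rk x) (rk y)) (by omega)).2.2.1
      n y (by simp)).2 h2
    have a3 := (stages b req _).S.Ult _ _ _ h1 a2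
    exact ((agree_stages b req (s := rk x) (t := max (rk x) (rk y)) (by omega)).2.2.1
      n x (by simp)).1 a3
  Elt x y h1 h2 := by
    have a2 := ((agree_stages b req (s := rk x) (t := max (rk x) (rk y)) (by omega)).2.2.2
      x (by simp)).2 h2
    have a3 := (stages b req _).S.Elt _ _ h1 a2
    exact ((agree_stages b req (s := rk y) (t := max (rk x) (rk y)) (by omega)).2.2.2
      y (by simp)).1 a3

theorem lim_agree (s : ℕ) : Agree (fun u => rk u ≤ s) (lim b req) (stages b req s).S := by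
  refine ⟨fun u v hu hv => ?_, fun u v hu hv => ?_, fun m u hu => ?_, fun u hu => ?_⟩
  · exact (agree_stages b req (s := max (rk u) (rk v)) (t := s) (by omega)).1 u v
      (by simp) (by simp)
  · exact (agree_stages b req (s := max (rk u) (rk v)) (t := s) (by omega)).2.1 u v
      (by simp) (by simp)
  · exact (agree_stages b req (s := rk u) (t := s) (by omega)).2.2.1 m u (by simp)
  · exact (agree_stages b req (s := rk u) (t := s) (by omega)).2.2.2 u (by simp)

end lim

end Pool.Agent.H218.BiEmb
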