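import Pool.Agent.H218.BiEmbA

namespace Pool.Agent.H218.BiEmb

variable {M N F : Type}

section lim

variable {P : Type} (b : RS P) (req : ℕ → Req (P ⊕ ℕ))

theorem lim_good (hreq : ∀ r s0, ∃ s, s0 ≤ s ∧ req s = r) : Good (lim b req) := by
  classical
  intro F S n Q hfin hPE c
  by_cases hc : ∃ d, (c, d) ∈ Q
  · obtain ⟨d, hd⟩ := hc
    exact ⟨d, by rw [Set.insert_eq_of_mem hd]; exact hPE⟩
  obtain ⟨p0, exb, h1, h2, h3, h4, h5⟩ : ∃ (p0 : ℕ) (exb : Bool),
      (exb = true → S.U p0 c) ∧ (∀ m < p0, ¬ S.U m c) ∧ (exb = false → n ≤ p0) ∧ p0 ≤ n ∧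
      (exb = true → p0 < n) := by
    by_cases hcol : ∃ p, S.U p c ∧ p < n
    · refine ⟨Nat.find hcol, true, fun _ => (Nat.find_spec hcol).1, fun m hm hU => ?_,
        by simp, le_of_lt (Nat.find_spec hcol).2, fun _ => (Nat.find_spec hcol).2⟩
      exact Nat.find_min hcol hm ⟨hU, lt_trans hm (Nat.find_spec hcol).2⟩
    · push Not at hcol
      refine ⟨n, false, by simp, fun m hm hU => ?_, fun _ => le_refl _, le_refl _, by simp⟩
      have := hcol m hU
      omega
  set Qf := hfin.toFinset with hQf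
  have memQ : ∀ q, q ∈ Qf ↔ q ∈ Q := fun q => by simp [hQf]
  set B := (Qf.filter (fun q => S.lt q.1 c)).image Prod.snd with hB
  set C := (Qf.filter (fun q => S.lt c q.1)).image Prod.snd with hC
  set Ri := (Qf.filter (fun q => S.R q.1 c)).image Prod.snd with hRi
  set Ro := (Qf.filter (fun q => S.R c q.1)).image Prod.snd with hRo
  have memB : ∀ a, a ∈ B ↔ ∃ q ∈ Q, S.lt q.1 c ∧ q.2 = a := fun a => by
    simp only [hB, Finset.mem_image, Finset.mem_filter, memQ]; tauto
  have memC : ∀ a, a ∈ C ↔ ∃ q ∈ Q, S.lt c q.1 ∧ q.2 = a := fun a => by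
    simp only [hC, Finset.mem_image, Finset.mem_filter, memQ]; tauto
  have memRi : ∀ a, a ∈ Ri ↔ ∃ q ∈ Q, S.R q.1 c ∧ q.2 = a := fun a => by
    simp only [hRi, Finset.mem_image, Finset.mem_filter, memQ]; tauto
  have memRo : ∀ a, a ∈ Ro ↔ ∃ q ∈ Q, S.R c q.1 ∧ q.2 = a := fun a => by
    simp only [hRo, Finset.mem_image, Finset.mem_filter, memQ]; tauto
  obtain ⟨s, hs, hr⟩ := hreq (B, C, Ri, Ro, decide (S.R c c), p0, exb, decide (S.E c))
    (Qf.sup (fun q => rk q.2))
  have hrk : ∀ q ∈ Q, rk q.2 ≤ s := fun q hq =>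
    le_trans (Finset.le_sup (f := fun q : F × (P ⊕ ℕ) => rk q.2) ((memQ q).2 hq)) hs
  set St := stages b req s with hSt
  obtain ⟨g1, g2, g3, g4⟩ := lim_agree b req s
  have hV : RV s St.S (req s) := by
    rw [hr]
    refine ⟨⟨fun u => ⟨fun h => ?_, fun h => ?_⟩, ?_, ?_, ?_, ?_, ?_, ?_, ?_⟩, ?_, ?_⟩
    · have := (St.supp _ _ h).2; simp [rk] at this
    · have := (St.supp _ _ h).1; simp [rk] at this
    · intro h
      obtain ⟨q, hq, _, h'⟩ := (memB _).1 (Finset.mem_coe.1 h)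
      have := hrk q hq
      rw [h'] at this
      simp [rk] at this
    · intro h
      obtain ⟨q, hq, _, h'⟩ := (memC _).1 (Finset.mem_coe.1 h)
      have := hrk q hq
      rw [h'] at this
      simp [rk] at this
    · intro x hx y hy
      obtain ⟨q, hq, hq1, rfl⟩ := (memB _).1 (Finset.mem_coe.1 hx)
      obtain ⟨q', hq', hq1', rfl⟩ := (memC _).1 (Finset.mem_coe.1 hy)
      rw [g1 _ _ (hrk q hq) (hrk q' hq')]
      exact (hPE q hq q' hq').2.1.1 (S.tr _ _ _ hq1 hq1')
    · intro hex x hx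
      obtain ⟨q, hq, hq1, rfl⟩ := (memB _).1 (Finset.mem_coe.1 hx)
      rw [g3 _ _ (hrk q hq)]
      exact ((hPE q hq q hq).2.2.2.1 p0 (h5 hex)).1 (S.Ult _ _ _ hq1 (h1 hex))
    · intro x hx m hm hU
      obtain ⟨q, hq, hq1, rfl⟩ := (memC _).1 (Finset.mem_coe.1 hx)
      rw [g3 _ _ (hrk q hq)] at hU
      have hm' : m < p0 := hm
      have := ((hPE q hq q hq).2.2.2.1 m (by omega)).2 hU
      exact h2 m hm (S.Ult _ _ _ hq1 this)
    · intro x hx hE
      obtain ⟨q, hq, hq1, rfl⟩ := (memB _).1 (Finset.mem_coe.1 hx)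
      rw [g4 _ (hrk q hq)] at hE
      have := ((hPE q hq q hq).2.2.2.2).2 hE
      simpa using S.Elt _ _ hq1 this
    · intro hE x hx
      obtain ⟨q, hq, hq1, rfl⟩ := (memC _).1 (Finset.mem_coe.1 hx)
      rw [g4 _ (hrk q hq)]
      have hE' : S.E c := by simpa using hE
      exact ((hPE q hq q hq).2.2.2.2).1 (S.Elt _ _ hq1 hE')
    · intro x hx
      obtain ⟨q, hq, hq1, rfl⟩ := (memB _).1 hx
      exact hrk q hq
    · intro x hx
      obtain ⟨q, hq, hq1, rfl⟩ := (memC _).1 hx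
      exact hrk q hq
  have hnext : (stages b req (s + 1)).S = addRS hV.1 (↑(req s).2.2.1) (↑(req s).2.2.2.1)
      ((req s).2.2.2.2.1 = true) := by
    change nextS St (req s) = _
    unfold nextS
    rw [dif_pos hV]
  obtain ⟨k1, k2, k3, k4⟩ := lim_agree b req (s + 1)
  set d : P ⊕ ℕ := Sum.inr s with hd
  have hdr : rk d ≤ s + 1 := by simp [hd, rk]
  have hqd : ∀ q ∈ Q, q.2 ≠ d := fun q hq h => by
    have := hrk q hq
    rw [h] at this
    simp [hd, rk] at this
  have LT : ∀ u v, rk u ≤ s + 1 → rk v ≤ s + 1 → ((lim b req).lt u v ↔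
      addLt St.S d (↑B) (↑C) u v) := by
    intro u v hu hv
    rw [← k1 u v hu hv, hnext]
    change addLt St.S d (↑(req s).1) (↑(req s).2.1) u v ↔ _
    rw [hr]
  have RR : ∀ u v, rk u ≤ s + 1 → rk v ≤ s + 1 → ((lim b req).R u v ↔
      addR St.S d (↑Ri) (↑Ro) (decide (S.R c c) = true) u v) := by
    intro u v hu hv
    rw [← k2 u v hu hv, hnext]
    change addR St.S d (↑(req s).2.2.1) (↑(req s).2.2.2.1) ((req s).2.2.2.2.1 = true) u v ↔ _
    rw [hr]
  have UU : ∀ m u, rk u ≤ s + 1 → ((lim b req).U m u ↔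
      addU St.S d (↑B) p0 (exb = true) m u) := by
    intro m u hu
    rw [← k3 m u hu, hnext]
    change addU St.S d (↑(req s).1) (req s).2.2.2.2.2.1 ((req s).2.2.2.2.2.2.1 = true) m u ↔ _
    rw [hr]
  have EE : ∀ u, rk u ≤ s + 1 → ((lim b req).E u ↔
      addE St.S d (decide (S.E c) = true) u) := by
    intro u hu
    rw [← k4 u hu, hnext]
    change addE St.S d ((req s).2.2.2.2.2.2.2 = true) u ↔ _
    rw [hr]
  have fU : ∀ m < n, (S.U m c ↔ (lim b req).U m d) := by
    intro m hm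
    rw [UU m d hdr]
    unfold addU
    constructor
    · intro h
      right
      have hpm : p0 ≤ m := by
        by_contra hlt
        exact h2 m (by omega) h
      refine ⟨rfl, hpm, ?_⟩
      left
      by_contra hex
      have := h3 (by simpa using hex)
      omega
    · rintro (⟨h, _⟩ | ⟨_, hpm, _⟩)
      · exact absurd rfl h
      · cases hex : exb with
        | false => have := h3 hex; omega
        | true => exact S.Um' hpm (h1 hex)
  have fE : S.E c ↔ (lim b req).E d := by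
    rw [EE d hdr]
    unfold addE
    simp
  have fRR : S.R c c ↔ (lim b req).R d d := by
    rw [RR d d hdr hdr]
    unfold addR
    simp
  have fl1 : ∀ q ∈ Q, (S.lt q.1 c ↔ (lim b req).lt q.2 d) := by
    intro q hq
    have hq2 := hrk q hq
    rw [LT q.2 d (by omega) hdr]
    unfold addLt
    constructor
    · intro h
      right; left
      exact ⟨rfl, q.2, Finset.mem_coe.2 ((memB _).2 ⟨q, hq, h, rfl⟩), Or.inl rfl⟩
    · rintro (h | ⟨_, x, hx, h⟩ | ⟨h, _⟩)
      · exact absurd h (hV.1.hx _).1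
      · obtain ⟨q', hq', hq1, rfl⟩ := (memB _).1 (Finset.mem_coe.1 hx)
        rcases h with h | h
        · have := (hPE q hq q' hq').1.2 h
          rw [this]; exact hq1
        · rw [g1 _ _ (hrk q hq) (hrk q' hq')] at h
          exact S.tr _ _ _ ((hPE q hq q' hq').2.1.2 h) hq1
      · exact absurd h (hqd q hq)
  have fl2 : ∀ q ∈ Q, (S.lt c q.1 ↔ (lim b req).lt d q.2) := by
    intro q hq
    have hq2 := hrk q hq
    rw [LT d q.2 hdr (by omega)]
    unfold addLt
    constructor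
    · intro h
      right; right
      exact ⟨rfl, q.2, Finset.mem_coe.2 ((memC _).2 ⟨q, hq, h, rfl⟩), Or.inl rfl⟩
    · rintro (h | ⟨h, _⟩ | ⟨_, x, hx, h⟩)
      · exact absurd h (hV.1.hx _).2
      · exact absurd h (hqd q hq)
      · obtain ⟨q', hq', hq1, rfl⟩ := (memC _).1 (Finset.mem_coe.1 hx)
        rcases h with h | h
        · have := (hPE q hq q' hq').1.2 h
          rw [this]; exact hq1
        · rw [g1 _ _ (hrk q' hq') (hrk q hq)] at h
          exact S.tr _ _ _ hq1 ((hPE q' hq' q hq).2.1.2 h)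
  have fr1 : ∀ q ∈ Q, (S.R q.1 c ↔ (lim b req).R q.2 d) := by
    intro q hq
    have hq2 := hrk q hq
    rw [RR q.2 d (by omega) hdr]
    unfold addR
    constructor
    · intro h
      right; left
      exact ⟨hqd q hq, rfl, Finset.mem_coe.2 ((memRi _).2 ⟨q, hq, h, rfl⟩)⟩
    · rintro (⟨_, h, _⟩ | ⟨_, _, h⟩ | ⟨h, _⟩ | ⟨h, _⟩)
      · exact absurd rfl h
      · obtain ⟨q', hq', hq1, h⟩ := (memRi _).1 (Finset.mem_coe.1 h)
        have := (hPE q' hq' q hq).1.2 h
        rw [← this]; exact hq1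
      · exact absurd h (hqd q hq)
      · exact absurd h (hqd q hq)
  have fr2 : ∀ q ∈ Q, (S.R c q.1 ↔ (lim b req).R d q.2) := by
    intro q hq
    have hq2 := hrk q hq
    rw [RR d q.2 hdr (by omega)]
    unfold addR
    constructor
    · intro h
      right; right; left
      exact ⟨rfl, hqd q hq, Finset.mem_coe.2 ((memRo _).2 ⟨q, hq, h, rfl⟩)⟩
    · rintro (⟨h, _, _⟩ | ⟨h, _, _⟩ | ⟨_, _, h⟩ | ⟨_, h, _⟩)
      · exact absurd rfl h
      · exact absurd rfl h
      · obtain ⟨q', hq', hq1, h⟩ := (memRo _).1 (Finset.mem_coe.1 h)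
        have := (hPE q' hq' q hq).1.2 h
        rw [← this]; exact hq1
      · exact absurd h (hqd q hq)
  refine ⟨d, ?_⟩
  intro p hp q hq
  rw [Set.mem_insert_iff] at hp hq
  rcases hp with rfl | hp <;> rcases hq with rfl | hq
  · exact ⟨by simp, iff_of_false (S.irr _) ((lim b req).irr _), fRR, fU, fE⟩
  · refine ⟨iff_of_false ?_ ?_, fl2 q hq, fr2 q hq, fU, fE⟩
    · intro h
      have h' : c = q.1 := h
      exact hc ⟨q.2, by rw [h']; exact hq⟩
    · intro h
      exact hqd q hq (Eq.symm h)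
  · refine ⟨iff_of_false ?_ ?_, fl1 p hp, fr1 p hp, (hPE p hp p hp).2.2.2.1,
      (hPE p hp p hp).2.2.2.2⟩
    · intro h
      have h' : p.1 = c := h
      exact hc ⟨p.2, by rw [← h']; exact hp⟩
    · intro h
      exact hqd p hp h
  · exact hPE p hp q hq

theorem lim_base_lt (x y : P) : (lim b req).lt (Sum.inl x) (Sum.inl y) ↔ b.lt x y := by
  rw [← (lim_agree b req 0).1 _ _ (by simp [rk]) (by simp [rk])]
  change (∃ x' y', Sum.inl x = Sum.inl x' ∧ Sum.inl y = Sum.inl y' ∧ b.lt x' y') ↔ _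
  simp

theorem lim_base_R (x y : P) : (lim b req).R (Sum.inl x) (Sum.inl y) ↔ b.R x y := by
  rw [← (lim_agree b req 0).2.1 _ _ (by simp [rk]) (by simp [rk])]
  change (∃ x' y', Sum.inl x = Sum.inl x' ∧ Sum.inl y = Sum.inl y' ∧ b.R x' y') ↔ _
  simp

theorem lim_base_U (m : ℕ) (x : P) : (lim b req).U m (Sum.inl x) ↔ b.U m x := by
  rw [← (lim_agree b req 0).2.2.1 _ _ (by simp [rk])]
  change (∃ x', Sum.inl x = Sum.inl x' ∧ b.U m x') ↔ _
  simp

theorem lim_base_E (x : P) : (lim b req).E (Sum.inl x) ↔ b.E x := by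
  rw [← (lim_agree b req 0).2.2.2 _ (by simp [rk])]
  change (∃ x', Sum.inl x = Sum.inl x' ∧ b.E x') ↔ _
  simp

theorem lim_W_aux (n : ℕ) : ∀ x, rk x ≤ n → (lim b req).W x → (∃ p, x = Sum.inl p) ∨
    ∃ p, (lim b req).W (Sum.inl p) ∧ (lim b req).lt (Sum.inl p) x := by
  classical
  induction n with
  | zero =>
    rintro (x | i) hx hW
    · exact Or.inl ⟨x, rfl⟩
    · simp [rk] at hx
  | succ n ih =>
    rintro (x | s) hx hW
    · exact Or.inl ⟨x, rfl⟩
    right
    have hs : s ≤ n := by simpa [rk] using hx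
    obtain ⟨g1, g2, g3, g4⟩ := lim_agree b req s
    obtain ⟨k1, k2, k3, k4⟩ := lim_agree b req (s + 1)
    set St := stages b req s with hSt
    by_cases hV : RV s St.S (req s)
    · have hnext : (stages b req (s + 1)).S = addRS hV.1 (↑(req s).2.2.1) (↑(req s).2.2.2.1)
          ((req s).2.2.2.2.1 = true) := by
        change nextS St (req s) = _
        unfold nextS
        rw [dif_pos hV]
      have hU : ∀ m, ¬ addU St.S (Sum.inr s) (↑(req s).1) (req s).2.2.2.2.2.1
          ((req s).2.2.2.2.2.2.1 = true) m (Sum.inr s) := by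
        intro m h
        apply hW m
        rw [← k3 m _ (by simp [rk]), hnext]
        exact h
      have hB : ∃ x ∈ (req s).1, ∀ m, ¬ St.S.U m x := by
        by_contra hcon
        push Not at hcon
        choose! f hf using hcon
        apply hU (max (req s).2.2.2.2.2.1 ((req s).1.sup f))
        right
        refine ⟨rfl, le_max_left _ _, Or.inr fun x hx => ?_⟩
        have hx' : x ∈ (req s).1 := Finset.mem_coe.1 hx
        exact St.S.Um' (le_trans (Finset.le_sup hx') (le_max_right _ _)) (hf x hx')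
      obtain ⟨x, hxB, hxW⟩ := hB
      have hxr := hV.2.1 x hxB
      have hxW' : (lim b req).W x := fun m h => hxW m ((g3 m x hxr).2 h)
      have hlt : (lim b req).lt x (Sum.inr s) := by
        rw [← k1 _ _ (by omega) (by simp [rk]), hnext]
        exact Or.inr (Or.inl ⟨rfl, x, Finset.mem_coe.2 hxB, Or.inl rfl⟩)
      rcases ih x (by omega) hxW' with ⟨p, rfl⟩ | ⟨p, hp, hpx⟩
      · exact ⟨p, hxW', hlt⟩
      · exact ⟨p, hp, (lim b req).tr _ _ _ hpx hlt⟩
    · exfalso
      have hnext : (stages b req (s + 1)).S = addRS (valid_triv St) ∅ ∅ False := by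
        change nextS St (req s) = _
        unfold nextS
        rw [dif_neg hV]
      apply hW 0
      rw [← k3 0 _ (by simp [rk]), hnext]
      exact Or.inr ⟨rfl, le_refl _, Or.inl trivial⟩

end lim

/-- The free completion of countable relational data. -/
theorem free {P : Type} [Countable P] (b : RS P) : ∃ (T : RS (P ⊕ ℕ)), Good T ∧
    (∀ x y, T.lt (Sum.inl x) (Sum.inl y) ↔ b.lt x y) ∧
    (∀ x y, T.R (Sum.inl x) (Sum.inl y) ↔ b.R x y) ∧
    (∀ m x, T.U m (Sum.inl x) ↔ b.U m x) ∧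
    (∀ x, T.E (Sum.inl x) ↔ b.E x) ∧
    (∀ x, T.W x → (∃ p, x = Sum.inl p) ∨ ∃ p, T.W (Sum.inl p) ∧ T.lt (Sum.inl p) x) := by
  obtain ⟨g, hg⟩ := exists_surjective_nat (Req (P ⊕ ℕ))
  let req : ℕ → Req (P ⊕ ℕ) := fun s => g (Nat.unpair s).1
  refine ⟨lim b req, lim_good b req ?_, lim_base_lt b req, lim_base_R b req,
    lim_base_U b req, lim_base_E b req, fun x hx => lim_W_aux b req (rk x) x (le_refl _) hx⟩
  intro r s0
  obtain ⟨i, hi⟩ := hg r
  refine ⟨Nat.pair i s0, Nat.right_le_pair _ _, ?_⟩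
  simp [req, hi]

end Pool.Agent.H218.BiEmb
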