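import Pool.Agent.H218.BiEmbB

namespace Pool.Agent.H218.BiEmb

open FirstOrder FirstOrder.Language FirstOrder.Language.Structure

/-- relation symbols -/
inductive Rl : ℕ → Type
  | lt : Rl 2
  | r : Rl 2
  | u : ℕ → Rl 1
  | e : Rl 1

/-- the language -/
def Lg : FirstOrder.Language.{0, 0} := ⟨fun _ => Empty, Rl⟩

variable {M N F : Type}

/-- interpretation of the relation symbols -/
def RS.interp (S : RS M) : {n : ℕ} → Rl n → (Fin n → M) → Prop
  | _, .lt, v => S.lt (v 0) (v 1)
  | _, .r, v => S.R (v 0) (v 1)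
  | _, .u m, v => S.U m (v 0)
  | _, .e, v => S.E (v 0)

/-- `S` is the data of the structure. -/
def Compat (S : RS M) [Lg.Structure M] : Prop :=
  ∀ (n : ℕ) (r : Rl n) (v : Fin n → M), RelMap (L := Lg) (r : Lg.Relations n) v ↔ S.interp r v

def RS.str (S : RS M) : Lg.Structure M where
  funMap := fun f => Empty.elim f
  RelMap := fun {_} r v => S.interp r v

theorem RS.str_compat (S : RS M) : @Compat M S S.str := fun _ _ _ => Iff.rfl

theorem term_var {β : Type} (t : Lg.Term β) : ∃ z, t = FirstOrder.Language.Term.var z := by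
  cases t with
  | var z => exact ⟨z, rfl⟩
  | func f _ => exact Empty.elim f

/-- the set of pairs of two assignments -/
def prs {β : Type} (v : β → M) (w : β → N) : Set (M × N) := Set.range fun z => (v z, w z)

theorem prs_snoc {α : Type} {k : ℕ} (v : α → M) (xs : Fin k → M) (w : α → N) (ys : Fin k → N)
    (a : M) (d : N) :
    prs (Sum.elim v (Fin.snoc xs a : Fin (k + 1) → M))
      (Sum.elim w (Fin.snoc ys d : Fin (k + 1) → N)) ⊆
      insert (a, d) (prs (Sum.elim v xs) (Sum.elim w ys)) := by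
  rintro _ ⟨z, rfl⟩
  rcases z with z | z
  · exact Set.mem_insert_of_mem _ ⟨Sum.inl z, rfl⟩
  · refine Fin.lastCases ?_ (fun i => ?_) z
    · left
      simp
    · refine Set.mem_insert_of_mem _ ⟨Sum.inr i, ?_⟩
      simp

theorem qe {α : Type} [Finite α] {k : ℕ} (φ : Lg.BoundedFormula α k) :
    ∃ n, ∀ (M N : Type) [Lg.Structure M] [Lg.Structure N] (S : RS M) (T : RS N),
      Compat S → Compat T → Good S → Good T →
      ∀ (v : α → M) (xs : Fin k → M) (w : α → N) (ys : Fin k → N),
      PE n S T (prs (Sum.elim v xs) (Sum.elim w ys)) →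
      (φ.Realize v xs ↔ φ.Realize w ys) := by
  induction φ with
  | falsum => exact ⟨0, fun _ _ _ _ _ _ _ _ _ _ _ _ _ _ _ => Iff.rfl⟩
  | @equal k t₁ t₂ =>
    obtain ⟨z₁, rfl⟩ := term_var t₁
    obtain ⟨z₂, rfl⟩ := term_var t₂
    refine ⟨0, fun M N _ _ S T hS hT gS gT v xs w ys hP => ?_⟩
    have := (hP _ ⟨z₁, rfl⟩ _ ⟨z₂, rfl⟩).1
    simpa [BoundedFormula.Realize] using this
  | @rel k l R ts =>
    choose z hz using fun i => term_var (ts i)
    have key : ∀ (r : Rl l), ∃ n, ∀ (M N : Type) (S : RS M) (T : RS N)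
        (v : α → M) (xs : Fin k → M) (w : α → N) (ys : Fin k → N),
        PE n S T (prs (Sum.elim v xs) (Sum.elim w ys)) →
        (S.interp r (fun i => Sum.elim v xs (z i)) ↔
          T.interp r (fun i => Sum.elim w ys (z i))) := by
      intro r
      cases r with
      | lt =>
        exact ⟨0, fun M N S T v xs w ys hP => (hP _ ⟨z 0, rfl⟩ _ ⟨z 1, rfl⟩).2.1⟩
      | r =>
        exact ⟨0, fun M N S T v xs w ys hP => (hP _ ⟨z 0, rfl⟩ _ ⟨z 1, rfl⟩).2.2.1⟩
      | u m =>
        exact ⟨m + 1, fun M N S T v xs w ys hP =>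
          (hP _ ⟨z 0, rfl⟩ _ ⟨z 0, rfl⟩).2.2.2.1 m (by omega)⟩
      | e =>
        exact ⟨0, fun M N S T v xs w ys hP => (hP _ ⟨z 0, rfl⟩ _ ⟨z 0, rfl⟩).2.2.2.2⟩
    obtain ⟨n, hn⟩ := key R
    refine ⟨n, fun M N _ _ S T hS hT gS gT v xs w ys hP => ?_⟩
    have h := hn M N S T v xs w ys hP
    rw [← hS, ← hT] at h
    have e1 : (fun i => Term.realize (Sum.elim v xs) (ts i)) =
        fun i => Sum.elim v xs (z i) := by
      funext i; rw [hz i]; rfl
    have e2 : (fun i => Term.realize (Sum.elim w ys) (ts i)) =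
        fun i => Sum.elim w ys (z i) := by
      funext i; rw [hz i]; rfl
    change RelMap R (fun i => Term.realize (Sum.elim v xs) (ts i)) ↔
      RelMap R (fun i => Term.realize (Sum.elim w ys) (ts i))
    rw [e1, e2]
    exact h
  | @imp k φ ψ ih₁ ih₂ =>
    obtain ⟨n₁, h₁⟩ := ih₁
    obtain ⟨n₂, h₂⟩ := ih₂
    refine ⟨max n₁ n₂, fun M N _ _ S T hS hT gS gT v xs w ys hP => ?_⟩
    have a := h₁ M N S T hS hT gS gT v xs w ys (hP.mono (le_max_left _ _))
    have b := h₂ M N S T hS hT gS gT v xs w ys (hP.mono (le_max_right _ _))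
    simp only [BoundedFormula.realize_imp, a, b]
  | @all k φ ih =>
    obtain ⟨n, h⟩ := ih
    refine ⟨n, fun M N _ _ S T hS hT gS gT v xs w ys hP => ?_⟩
    have hfin : (prs (Sum.elim v xs) (Sum.elim w ys)).Finite := Set.finite_range _
    simp only [BoundedFormula.realize_all]
    constructor
    · intro H d
      obtain ⟨a, ha⟩ := gS N T n _ (hfin.image Prod.swap) hP.swap d
      have ha' := ha.swap
      have hsub : prs (Sum.elim v (Fin.snoc xs a : Fin (k + 1) → M))
          (Sum.elim w (Fin.snoc ys d : Fin (k + 1) → N)) ⊆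
          Prod.swap '' (insert (d, a) (Prod.swap '' prs (Sum.elim v xs) (Sum.elim w ys))) := by
        refine (prs_snoc v xs w ys a d).trans ?_
        rw [Set.image_insert_eq, ← Set.image_comp]
        simp
      exact (h M N S T hS hT gS gT v _ w _ (ha'.subset hsub)).1 (H a)
    · intro H a
      obtain ⟨d, hd⟩ := gT M S n _ hfin hP a
      exact (h M N S T hS hT gS gT v _ w _ (hd.subset (prs_snoc v xs w ys a d))).2 (H d)

/-! ### diagrams and transfer -/

abbrev At (n k : ℕ) : Type :=
  (Fin k × Fin k) ⊕ (Fin k × Fin k) ⊕ (Fin k × Fin k) ⊕ (Fin n × Fin k) ⊕ Fin k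

def sat [Lg.Structure M] {n k : ℕ} (v : Fin k → M) : At n k → Prop
  | .inl (i, j) => v i = v j
  | .inr (.inl (i, j)) => RelMap (L := Lg) (Rl.lt : Lg.Relations 2) ![v i, v j]
  | .inr (.inr (.inl (i, j))) => RelMap (L := Lg) (Rl.r : Lg.Relations 2) ![v i, v j]
  | .inr (.inr (.inr (.inl (m, i)))) => RelMap (L := Lg) (Rl.u m : Lg.Relations 1) ![v i]
  | .inr (.inr (.inr (.inr i))) => RelMap (L := Lg) (Rl.e : Lg.Relations 1) ![v i]

def satS (S : RS M) {n k : ℕ} (v : Fin k → M) : At n k → Prop
  | .inl (i, j) => v i = v j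
  | .inr (.inl (i, j)) => S.lt (v i) (v j)
  | .inr (.inr (.inl (i, j))) => S.R (v i) (v j)
  | .inr (.inr (.inr (.inl (m, i)))) => S.U m (v i)
  | .inr (.inr (.inr (.inr i))) => S.E (v i)

theorem sat_iff {S : RS M} [Lg.Structure M] (h : Compat S) {n k : ℕ} (v : Fin k → M)
    (a : At n k) : sat v a ↔ satS S v a := by
  rcases a with ⟨i, j⟩ | ⟨i, j⟩ | ⟨i, j⟩ | ⟨m, i⟩ | i
  · exact Iff.rfl
  · exact h 2 Rl.lt ![v i, v j]
  · exact h 2 Rl.r ![v i, v j]
  · exact h 1 (Rl.u m) ![v i]
  · exact h 1 Rl.e ![v i]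

theorem PE_iff {S : RS M} {T : RS N} {n k : ℕ} (v : Fin k → M) (w : Fin k → N) :
    PE n S T (prs v w) ↔ ∀ a : At n k, (satS S v a ↔ satS T w a) := by
  constructor
  · rintro h (⟨i, j⟩ | ⟨i, j⟩ | ⟨i, j⟩ | ⟨m, i⟩ | i)
    · exact (h _ ⟨i, rfl⟩ _ ⟨j, rfl⟩).1
    · exact (h _ ⟨i, rfl⟩ _ ⟨j, rfl⟩).2.1
    · exact (h _ ⟨i, rfl⟩ _ ⟨j, rfl⟩).2.2.1
    · exact (h _ ⟨i, rfl⟩ _ ⟨i, rfl⟩).2.2.2.1 m m.2
    · exact (h _ ⟨i, rfl⟩ _ ⟨i, rfl⟩).2.2.2.2
  · rintro h _ ⟨i, rfl⟩ _ ⟨j, rfl⟩
    exact ⟨h (.inl (i, j)), h (.inr (.inl (i, j))), h (.inr (.inr (.inl (i, j)))),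
      fun m hm => h (.inr (.inr (.inr (.inl (⟨m, hm⟩, i))))), h (.inr (.inr (.inr (.inr i))))⟩

def fml {n k : ℕ} : At n k → Lg.BoundedFormula Empty k
  | .inl (i, j) => (Term.var (Sum.inr i)).bdEqual (Term.var (Sum.inr j))
  | .inr (.inl (i, j)) =>
      Relations.boundedFormula₂ (L := Lg) (Rl.lt : Lg.Relations 2) (Term.var (Sum.inr i))
        (Term.var (Sum.inr j))
  | .inr (.inr (.inl (i, j))) =>
      Relations.boundedFormula₂ (L := Lg) (Rl.r : Lg.Relations 2) (Term.var (Sum.inr i))
        (Term.var (Sum.inr j))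
  | .inr (.inr (.inr (.inl (m, i)))) =>
      Relations.boundedFormula₁ (L := Lg) (Rl.u m : Lg.Relations 1) (Term.var (Sum.inr i))
  | .inr (.inr (.inr (.inr i))) =>
      Relations.boundedFormula₁ (L := Lg) (Rl.e : Lg.Relations 1) (Term.var (Sum.inr i))

theorem realize_fml [Lg.Structure M] {n k : ℕ} (e : Empty → M) (v : Fin k → M) (a : At n k) :
    (fml a).Realize e v ↔ sat v a := by
  rcases a with ⟨i, j⟩ | ⟨i, j⟩ | ⟨i, j⟩ | ⟨m, i⟩ | i
  · simp [fml, sat]
  · simp [fml, sat, BoundedFormula.realize_rel₂]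
  · simp [fml, sat, BoundedFormula.realize_rel₂]
  · simp [fml, sat, BoundedFormula.realize_rel₁]
  · simp [fml, sat, BoundedFormula.realize_rel₁]

/-- conjunction of literals -/
def fl {n k : ℕ} : List (At n k × Bool) → Lg.BoundedFormula Empty k
  | [] => ⊤
  | (a, true) :: l => fml a ⊓ fl l
  | (a, false) :: l => (fml a).not ⊓ fl l

theorem realize_fl [Lg.Structure M] {n k : ℕ} (e : Empty → M) (v : Fin k → M)
    (l : List (At n k × Bool)) :
    (fl l).Realize e v ↔ ∀ p ∈ l, (sat v p.1 ↔ p.2 = true) := by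
  induction l with
  | nil => simp [fl]
  | cons p l ih =>
    obtain ⟨a, b⟩ := p
    cases b <;> simp [fl, ih, realize_fml]

theorem transfer {M₀ M : Type} [Lg.Structure M₀] [Lg.Structure M] (h : M₀ ≅[Lg] M) {n k : ℕ}
    (l : List (At n k × Bool)) (l' : List (At n (k + 1) × Bool))
    (H : ∀ v : Fin k → M₀, (∀ p ∈ l, (sat v p.1 ↔ p.2 = true)) →
      ∃ y, ∀ p ∈ l', (sat (Fin.snoc v y : Fin (k + 1) → M₀) p.1 ↔ p.2 = true)) :
    ∀ v : Fin k → M, (∀ p ∈ l, (sat v p.1 ↔ p.2 = true)) →
      ∃ y, ∀ p ∈ l', (sat (Fin.snoc v y : Fin (k + 1) → M) p.1 ↔ p.2 = true) := by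
  have key : ∀ (K : Type) [Lg.Structure K],
      (K ⊨ ((fl l).imp (fl l').ex).alls ↔ ∀ v : Fin k → K,
        (∀ p ∈ l, (sat v p.1 ↔ p.2 = true)) →
        ∃ y, ∀ p ∈ l', (sat (Fin.snoc v y : Fin (k + 1) → K) p.1 ↔ p.2 = true)) := by
    intro K _
    rw [Sentence.Realize, BoundedFormula.realize_alls]
    simp only [BoundedFormula.realize_imp, BoundedFormula.realize_ex, realize_fl]
  rw [← key M]
  exact ((elementarilyEquivalent_iff (L := Lg)).1 h _).1 ((key M₀).2 H)

theorem transfer0 {M₀ M : Type} [Lg.Structure M₀] [Lg.Structure M] (h : M₀ ≅[Lg] M) {n k : ℕ}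
    (l : List (At n k × Bool))
    (H : ∀ v : Fin k → M₀, ¬ (∀ p ∈ l, (sat v p.1 ↔ p.2 = true))) :
    ∀ v : Fin k → M, ¬ (∀ p ∈ l, (sat v p.1 ↔ p.2 = true)) := by
  intro v hv
  obtain ⟨y, hy⟩ := transfer h l [(.inl (Fin.last k, Fin.last k), false)]
    (fun v hv => absurd hv (H v)) v hv
  have := hy _ (List.mem_singleton.2 rfl)
  simp [sat] at this

theorem model_good {M₀ M : Type} [Lg.Structure M₀] [Lg.Structure M] (T₀ : RS M₀)
    (hc : Compat T₀) (hg : Good T₀) (h : M₀ ≅[Lg] M) : ∃ S : RS M, Compat S ∧ Good S := by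
  classical
  let S : RS M :=
    { lt := fun x y => RelMap (L := Lg) (Rl.lt : Lg.Relations 2) ![x, y]
      R := fun x y => RelMap (L := Lg) (Rl.r : Lg.Relations 2) ![x, y]
      U := fun m x => RelMap (L := Lg) (Rl.u m : Lg.Relations 1) ![x]
      E := fun x => RelMap (L := Lg) (Rl.e : Lg.Relations 1) ![x]
      irr := by
        intro x hx
        refine transfer0 h (n := 0) (k := 1) [(.inr (.inl (0, 0)), true)] ?_ ![x] ?_
        · intro v hv
          have := (hv _ (List.mem_singleton.2 rfl)).2 rfl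
          rw [sat_iff hc] at this
          exact T₀.irr _ this
        · intro p hp
          rw [List.mem_singleton] at hp
          subst hp
          simpa [sat] using hx
      tr := by
        intro x y z h1 h2
        by_contra h3
        refine transfer0 h (n := 0) (k := 3) [(.inr (.inl (0, 1)), true),
          (.inr (.inl (1, 2)), true), (.inr (.inl (0, 2)), false)] ?_ ![x, y, z] ?_
        · intro v hv
          have a1 := (hv (.inr (.inl (0, 1)), true) (by simp)).2 rfl
          have a2 := (hv (.inr (.inl (1, 2)), true) (by simp)).2 rfl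
          have a3 := hv (.inr (.inl (0, 2)), false) (by simp)
          rw [sat_iff hc] at a1 a2 a3
          have := a3.1 (T₀.tr _ _ _ a1 a2)
          simp at this
        · intro p hp
          simp only [List.mem_cons, List.not_mem_nil, or_false] at hp
          rcases hp with rfl | rfl | rfl
          · simpa [sat] using h1
          · simpa [sat] using h2
          · simpa [sat] using h3
      Um := by
        intro n x h1
        by_contra h3
        refine transfer0 h (n := n + 2) (k := 1)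
          [(.inr (.inr (.inr (.inl (⟨n, by omega⟩, 0)))), true),
          (.inr (.inr (.inr (.inl (⟨n + 1, by omega⟩, 0)))), false)] ?_ ![x] ?_
        · intro v hv
          have a1 := (hv (.inr (.inr (.inr (.inl (⟨n, by omega⟩, 0)))), true) (by simp)).2 rfl
          have a3 := hv (.inr (.inr (.inr (.inl (⟨n + 1, by omega⟩, 0)))), false) (by simp)
          rw [sat_iff hc] at a1 a3
          have := a3.1 (T₀.Um _ _ a1)
          simp at this
        · intro p hp
          simp only [List.mem_cons, List.not_mem_nil, or_false] at hp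
          rcases hp with rfl | rfl
          · simpa [sat] using h1
          · simpa [sat] using h3
      Ult := by
        intro n x y h1 h2
        by_contra h3
        refine transfer0 h (n := n + 1) (k := 2) [(.inr (.inl (0, 1)), true),
          (.inr (.inr (.inr (.inl (⟨n, by omega⟩, 1)))), true),
          (.inr (.inr (.inr (.inl (⟨n, by omega⟩, 0)))), false)] ?_ ![x, y] ?_
        · intro v hv
          have a0 := (hv (.inr (.inl (0, 1)), true) (by simp)).2 rfl
          have a1 := (hv (.inr (.inr (.inr (.inl (⟨n, by omega⟩, 1)))), true) (by simp)).2 rfl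
          have a3 := hv (.inr (.inr (.inr (.inl (⟨n, by omega⟩, 0)))), false) (by simp)
          rw [sat_iff hc] at a0 a1 a3
          have := a3.1 (T₀.Ult _ _ _ a0 a1)
          simp at this
        · intro p hp
          simp only [List.mem_cons, List.not_mem_nil, or_false] at hp
          rcases hp with rfl | rfl | rfl
          · simpa [sat] using h1
          · simpa [sat] using h2
          · simpa [sat] using h3
      Elt := by
        intro x y h1 h2
        by_contra h3
        refine transfer0 h (n := 0) (k := 2) [(.inr (.inl (0, 1)), true),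
          (.inr (.inr (.inr (.inr 0))), true),
          (.inr (.inr (.inr (.inr 1))), false)] ?_ ![x, y] ?_
        · intro v hv
          have a0 := (hv (.inr (.inl (0, 1)), true) (by simp)).2 rfl
          have a1 := (hv (.inr (.inr (.inr (.inr 0))), true) (by simp)).2 rfl
          have a3 := hv (.inr (.inr (.inr (.inr 1))), false) (by simp)
          rw [sat_iff hc] at a0 a1 a3
          have := a3.1 (T₀.Elt _ _ a0 a1)
          simp at this
        · intro p hp
          simp only [List.mem_cons, List.not_mem_nil, or_false] at hp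
          rcases hp with rfl | rfl | rfl
          · simpa [sat] using h1
          · simpa [sat] using h2
          · simpa [sat] using h3 }
  have hS : Compat S := by
    intro n r v
    cases r with
    | lt =>
      have : v = ![v 0, v 1] := by funext i; fin_cases i <;> rfl
      rw [this]; exact Iff.rfl
    | r =>
      have : v = ![v 0, v 1] := by funext i; fin_cases i <;> rfl
      rw [this]; exact Iff.rfl
    | u m =>
      have : v = ![v 0] := by funext i; fin_cases i; rfl
      rw [this]; exact Iff.rfl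
    | e =>
      have : v = ![v 0] := by funext i; fin_cases i; rfl
      rw [this]; exact Iff.rfl
  refine ⟨S, hS, ?_⟩
  intro F SF n P hfin hPE c
  obtain ⟨k, g, -, hg'⟩ := hfin.fin_param
  have hP : P = prs (fun i => (g i).1) (fun i => (g i).2) := by
    rw [← hg']; rfl
  rw [hP, PE_iff] at hPE
  let l : List (At n k × Bool) := (Finset.univ : Finset (At n k)).toList.map
    (fun a => (a, decide (satS SF (fun i => (g i).1) a)))
  let l' : List (At n (k + 1) × Bool) := (Finset.univ : Finset (At n (k + 1))).toList.map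
    (fun a => (a, decide (satS SF (Fin.snoc (fun i => (g i).1) c : Fin (k + 1) → F) a)))
  obtain ⟨d, hd⟩ := transfer h l l' (by
    intro v hv
    have hv' : PE n SF T₀ (prs (fun i => (g i).1) v) := by
      rw [PE_iff]
      intro a
      have := hv (a, decide (satS SF (fun i => (g i).1) a)) (by simp [l])
      rw [sat_iff hc] at this
      simpa using this.symm
    obtain ⟨d, hd⟩ := hg F SF n _ (Set.finite_range _) hv' c
    refine ⟨d, ?_⟩
    have hd' : PE n SF T₀ (prs (Fin.snoc (fun i => (g i).1) c : Fin (k + 1) → F)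
        (Fin.snoc v d : Fin (k + 1) → M₀)) := by
      refine hd.subset ?_
      rintro _ ⟨z, rfl⟩
      refine Fin.lastCases ?_ (fun i => ?_) z
      · left
        simp
      · refine Set.mem_insert_of_mem _ ⟨i, ?_⟩
        simp
    rw [PE_iff] at hd'
    intro p hp
    simp only [l', List.mem_map] at hp
    obtain ⟨a, -, rfl⟩ := hp
    rw [sat_iff hc]
    simpa using (hd' a).symm) (fun i => (g i).2) (by
    intro p hp
    simp only [l, List.mem_map] at hp
    obtain ⟨a, -, rfl⟩ := hp
    rw [sat_iff hS]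
    simpa using (hPE a).symm)
  refine ⟨d, ?_⟩
  have hd' : PE n SF S (prs (Fin.snoc (fun i => (g i).1) c : Fin (k + 1) → F)
      (Fin.snoc (fun i => (g i).2) d : Fin (k + 1) → M)) := by
    rw [PE_iff]
    intro a
    have := hd (a, decide (satS SF (Fin.snoc (fun i => (g i).1) c : Fin (k + 1) → F) a))
      (by simp [l'])
    rw [sat_iff hS] at this
    simpa using this.symm
  refine hd'.subset ?_
  rw [hP]
  apply Set.insert_subset
  · exact ⟨Fin.last k, by simp⟩
  · rintro _ ⟨i, rfl⟩
    exact ⟨i.castSucc, by simp⟩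

theorem good_equiv {M N : Type} [Lg.Structure M] [Lg.Structure N] (S : RS M) (T : RS N)
    (hS : Compat S) (hT : Compat T) (gS : Good S) (gT : Good T) : M ≅[Lg] N := by
  rw [elementarilyEquivalent_iff]
  intro φ
  obtain ⟨n, hn⟩ := qe (α := Empty) (k := 0) φ
  exact hn M N S T hS hT gS gT default default default default (by
    rintro _ ⟨z, rfl⟩
    rcases z with z | z
    · exact z.elim
    · exact z.elim0)

/-- full embeddings of good structures are elementary -/
theorem elem_of {M N : Type} [Lg.Structure M] [Lg.Structure N] (S : RS M) (T : RS N)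
    (hS : Compat S) (hT : Compat T) (gS : Good S) (gT : Good T) (f : M → N)
    (hf : ∀ n, PE n S T (Set.range fun x => (x, f x))) : Nonempty (M ↪ₑ[Lg] N) := by
  refine ⟨⟨f, fun {m} φ x => ?_⟩⟩
  obtain ⟨n, hn⟩ := qe (α := Fin m) (k := 0) φ
  refine (hn M N S T hS hT gS gT x default (f ∘ x) default ((hf n).subset ?_)).symm
  rintro _ ⟨z, rfl⟩
  rcases z with z | z
  · exact ⟨x z, rfl⟩
  · exact z.elim0

end Pool.Agent.H218.BiEmb
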