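import Pool.Agent.H218.BiEmbC

namespace Pool.Agent.H218.BiEmb

open FirstOrder FirstOrder.Language FirstOrder.Language.Structure

variable {M N F : Type}

theorem step (S : RS F) (T : RS N) (hT : Good T) {P : Set (F × N)} (hfin : P.Finite)
    (hPE : ∀ n, PE n S T P) (c : F)
    (hc : (∃ p, S.U p c) ∨ (∃ q ∈ P, q.1 = c) ∨ (∃ q ∈ P, S.lt q.1 c ∧ T.W q.2)) :
    ∃ d, ∀ n, PE n S T (insert (c, d) P) := by
  have fin : ∀ (k : ℕ) (d : N), PE k S T (insert (c, d) P) →
      (∀ m, (S.U m c ↔ T.U m d)) → ∀ n, PE n S T (insert (c, d) P) := by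
    intro k d hd hU n x hx y hy
    obtain ⟨h1, h2, h3, _, h5⟩ := hd x hx y hy
    refine ⟨h1, h2, h3, fun m _ => ?_, h5⟩
    rcases (Set.mem_insert_iff.1 hx) with rfl | hx'
    · exact hU m
    · exact (hPE (m + 1) x hx' x hx').2.2.2.1 m (by omega)
  rcases hc with ⟨p, hp⟩ | ⟨q, hq, rfl⟩ | ⟨q, hq, hlt, hW⟩
  · obtain ⟨d, hd⟩ := hT F S (p + 1) P hfin (hPE _) c
    refine ⟨d, fin _ d hd fun m => ?_⟩
    have hself := hd (c, d) (Set.mem_insert _ _) (c, d) (Set.mem_insert _ _)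
    have hp' : T.U p d := (hself.2.2.2.1 p (by omega)).1 hp
    rcases Nat.lt_or_ge m (p + 1) with hm | hm
    · exact hself.2.2.2.1 m hm
    · exact iff_of_true (S.Um' (by omega) hp) (T.Um' (by omega) hp')
  · exact ⟨q.2, by rw [Set.insert_eq_of_mem hq]; exact hPE⟩
  · obtain ⟨d, hd⟩ := hT F S 0 P hfin (hPE _) c
    refine ⟨d, fin _ d hd fun m => ?_⟩
    have hlt' : T.lt q.2 d :=
      (hd q (Set.mem_insert_of_mem _ hq) (c, d) (Set.mem_insert _ _)).2.1.1 hlt
    refine iff_of_false (fun h => ?_) (fun h => ?_)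
    · exact hW m (((hPE (m + 1) q hq q hq).2.2.2.1 m (by omega)).1 (S.Ult _ _ _ hlt h))
    · exact hW m (T.Ult _ _ _ hlt' h)

theorem embed [Countable F] (S : RS F) (T : RS N) (hT : Good T) (P₀ : Set (F × N))
    (hfin : P₀.Finite) (hPE : ∀ n, PE n S T P₀)
    (hcol : ∀ c, (∃ p, S.U p c) ∨ (∃ q ∈ P₀, q.1 = c) ∨ (∃ q ∈ P₀, S.lt q.1 c ∧ T.W q.2)) :
    ∃ f : F → N, (∀ q ∈ P₀, f q.1 = q.2) ∧ ∀ n, PE n S T (Set.range fun x => (x, f x)) := by
  classical
  rcases isEmpty_or_nonempty F with hF | hF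
  · refine ⟨fun x => (hF.false x).elim, fun q => (hF.false q.1).elim, ?_⟩
    rintro n _ ⟨x, rfl⟩
    exact (hF.false x).elim
  obtain ⟨g, hg⟩ := exists_surjective_nat F
  let X := {P : Set (F × N) // P₀ ⊆ P ∧ P.Finite ∧ ∀ n, PE n S T P}
  have hstep : ∀ (x : X) (c : F), ∃ y : X, x.1 ⊆ y.1 ∧ ∃ d, (c, d) ∈ y.1 := by
    rintro ⟨P, h0, h1, h2⟩ c
    obtain ⟨d, hd⟩ := step S T hT h1 h2 c (by
      rcases hcol c with h | ⟨q, hq, h⟩ | ⟨q, hq, h⟩
      · exact Or.inl h
      · exact Or.inr (Or.inl ⟨q, h0 hq, h⟩)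
      · exact Or.inr (Or.inr ⟨q, h0 hq, h⟩))
    exact ⟨⟨insert (c, d) P, h0.trans (Set.subset_insert _ _), h1.insert _, hd⟩,
      Set.subset_insert _ _, d, Set.mem_insert _ _⟩
  choose nx hnx1 hnx2 using hstep
  let Q : ℕ → X := fun i => Nat.rec (⟨P₀, subset_rfl, hfin, hPE⟩ : X) (fun i x => nx x (g i)) i
  have hQs : ∀ i, Q (i + 1) = nx (Q i) (g i) := fun i => rfl
  have hmono : ∀ i j, i ≤ j → (Q i).1 ⊆ (Q j).1 := by
    intro i j hij
    induction j, hij using Nat.le_induction with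
    | base => exact subset_rfl
    | succ j _ ih => exact ih.trans (by rw [hQs]; exact hnx1 _ _)
  have htot : ∀ c, ∃ d, ∃ i, (c, d) ∈ (Q i).1 := by
    intro c
    obtain ⟨i, rfl⟩ := hg c
    obtain ⟨d, hd⟩ := hnx2 (Q i) (g i)
    exact ⟨d, i + 1, by rw [hQs]; exact hd⟩
  choose f hf using htot
  have hrel : ∀ n (x y : F × N), (∃ i, x ∈ (Q i).1) → (∃ i, y ∈ (Q i).1) → Rel1 n S T x y := by
    rintro n x y ⟨i, hi⟩ ⟨j, hj⟩
    exact (Q (max i j)).2.2.2 n x (hmono i _ (le_max_left _ _) hi) y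
      (hmono j _ (le_max_right _ _) hj)
  refine ⟨f, fun q hq => ?_, ?_⟩
  · exact (hrel 0 (q.1, f q.1) q (hf q.1) ⟨0, hq⟩).1.1 rfl
  · rintro n _ ⟨x, rfl⟩ _ ⟨y, rfl⟩
    exact hrel n _ _ (hf x) (hf y)

/-- add a point below the elements of infinite colour -/
def optRS (S : RS M) (T : RS N) (w : N) (h : T.E w → ∀ x, S.W x → S.E x) :
    RS (Option M) where
  lt u v := match u, v with
    | none, some y => S.W y
    | some x, some y => S.lt x y
    | _, none => False
  R u v := match u, v with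
    | none, none => T.R w w
    | some x, some y => S.R x y
    | _, _ => False
  U m u := match u with
    | none => False
    | some x => S.U m x
  E u := match u with
    | none => T.E w
    | some x => S.E x
  irr := by
    rintro (_ | x) hx
    · exact hx
    · exact S.irr _ hx
  tr := by
    rintro (_ | x) (_ | y) (_ | z) h1 h2
    · exact h1
    · exact h1.elim
    · exact h2
    · exact fun m hm => h1 m (S.Ult _ _ _ h2 hm)
    · exact h1
    · exact h1.elim
    · exact h2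
    · exact S.tr _ _ _ h1 h2
  Um := by
    rintro n (_ | x) hx
    · exact hx
    · exact S.Um _ _ hx
  Ult := by
    rintro n (_ | x) (_ | y) h1 h2
    · exact h2
    · exact h1 n h2
    · exact h2.elim
    · exact S.Ult _ _ _ h1 h2
  Elt := by
    rintro (_ | x) (_ | y) h1 h2
    · exact h2
    · exact h h2 y h1
    · exact h1.elim
    · exact S.Elt _ _ h1 h2

theorem cls_embed [Countable M] (S : RS M) (T : RS N) (gT : Good T)
    (h : (∀ x, ¬ S.W x) ∨ ∃ w, T.W w ∧ (T.E w → ∀ x, S.W x → S.E x)) :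
    ∃ f : M → N, ∀ n, PE n S T (Set.range fun x => (x, f x)) := by
  rcases h with h | ⟨w, hw, hE⟩
  · obtain ⟨f, -, hf⟩ := embed S T gT ∅ Set.finite_empty (fun n p hp => hp.elim) (fun c => by
      left
      by_contra hcon
      push Not at hcon
      exact h c hcon)
    exact ⟨f, hf⟩
  · obtain ⟨f, -, hf⟩ := embed (optRS S T w hE) T gT {(none, w)} (Set.finite_singleton _)
      (by
        rintro n _ rfl _ rfl
        refine ⟨by simp, iff_of_false (fun h => h) (T.irr _), Iff.rfl, fun m _ => ?_, Iff.rfl⟩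
        exact iff_of_false (fun h => h) (hw m))
      (by
        rintro (_ | c)
        · exact Or.inr (Or.inl ⟨_, rfl, rfl⟩)
        · by_cases hc : S.W c
          · exact Or.inr (Or.inr ⟨_, rfl, hc, hw⟩)
          · left
            unfold RS.W at hc
            push Not at hc
            exact hc)
    refine ⟨fun x => f (some x), ?_⟩
    rintro n _ ⟨x, rfl⟩ _ ⟨y, rfl⟩
    have := hf n _ ⟨some x, rfl⟩ _ ⟨some y, rfl⟩
    obtain ⟨h1, h2, h3, h4, h5⟩ := this
    refine ⟨?_, h2, h3, h4, h5⟩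
    simpa using h1

open Classical in
/-- the class of a structure -/
noncomputable def cls (S : RS M) : ℕ :=
  if ∀ x, ¬ S.W x then 0 else if ∀ x, S.W x → S.E x then 1 else 2

theorem cls_lt (S : RS M) : cls S < 3 := by
  unfold cls
  split_ifs <;> omega

theorem cls_le_iff [Countable M] (S : RS M) (T : RS N) (gT : Good T) :
    (∃ f : M → N, ∀ n, PE n S T (Set.range fun x => (x, f x))) ↔ cls S ≤ cls T := by
  constructor
  · rintro ⟨f, hf⟩
    have hW : ∀ x, S.W x → T.W (f x) := by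
      intro x hx m hm
      exact hx m (((hf (m + 1) _ ⟨x, rfl⟩ _ ⟨x, rfl⟩).2.2.2.1 m (by omega)).2 hm)
    have hE : ∀ x, (S.E x ↔ T.E (f x)) := fun x => (hf 0 _ ⟨x, rfl⟩ _ ⟨x, rfl⟩).2.2.2.2
    unfold cls
    by_cases h1 : ∀ x, ¬ S.W x
    · rw [if_pos h1]; exact Nat.zero_le _
    · have h1' : ¬ ∀ x, ¬ T.W x := by
        intro h
        exact h1 fun x hx => h _ (hW x hx)
      rw [if_neg h1, if_neg h1']
      by_cases h2 : ∀ x, T.W x → T.E x
      · have h2' : ∀ x, S.W x → S.E x := fun x hx => (hE x).2 (h2 _ (hW x hx))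
        rw [if_pos h2, if_pos h2']
      · rw [if_neg h2]
        split_ifs <;> omega
  · intro h
    apply cls_embed S T gT
    unfold cls at h
    by_cases h1 : ∀ x, ¬ S.W x
    · exact Or.inl h1
    right
    have h1' : ¬ ∀ x, ¬ T.W x := by
      intro h'
      rw [if_neg h1, if_pos h'] at h
      split_ifs at h <;> omega
    rw [if_neg h1, if_neg h1'] at h
    by_cases h2 : ∀ x, S.W x → S.E x
    · push Not at h1'
      obtain ⟨w, hw⟩ := h1'
      exact ⟨w, hw, fun _ => h2⟩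
    · rw [if_neg h2] at h
      have h2' : ¬ ∀ x, T.W x → T.E x := by
        intro h'
        rw [if_pos h'] at h
        omega
      push Not at h2'
      obtain ⟨w, hw, hwE⟩ := h2'
      exact ⟨w, hw, fun h => absurd h hwE⟩

/-! ### the invariant -/

/-- minimal elements of infinite colour -/
def RS.Mn (S : RS M) (a : M) : Prop := S.W a ∧ ∀ x, S.lt x a → ¬ S.W x

def Inv (S : RS M) : Set ℕ := {n | ∃ a, S.Mn a ∧ {b | S.Mn b ∧ S.R a b}.ncard = n}

theorem inv_le (S : RS M) (T : RS N) (e : M ≃ N) (h1 : ∀ x y, S.lt x y ↔ T.lt (e x) (e y))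
    (h2 : ∀ x y, S.R x y ↔ T.R (e x) (e y)) (h3 : ∀ m x, S.U m x ↔ T.U m (e x)) :
    Inv S ⊆ Inv T := by
  have hW : ∀ x, S.W x ↔ T.W (e x) := fun x => forall_congr' fun m => not_congr (h3 m x)
  have hMn : ∀ x, S.Mn x ↔ T.Mn (e x) := by
    intro x
    unfold RS.Mn
    refine and_congr (hW x) ⟨fun h y hy hWy => ?_, fun h y hy hWy => ?_⟩
    · refine h (e.symm y) ?_ ?_
      · rw [h1]; simpa using hy
      · rw [hW]; simpa using hWy
    · exact h (e y) ((h1 _ _).1 hy) ((hW _).1 hWy)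
  rintro n ⟨a, ha, hn⟩
  refine ⟨e a, (hMn a).1 ha, ?_⟩
  have : {b | T.Mn b ∧ T.R (e a) b} = e '' {b | S.Mn b ∧ S.R a b} := by
    ext y
    simp only [Set.mem_setOf_eq, Set.mem_image]
    constructor
    · rintro ⟨hy1, hy2⟩
      refine ⟨e.symm y, ⟨?_, ?_⟩, by simp⟩
      · rw [hMn]; simpa using hy1
      · rw [h2]; simpa using hy2
    · rintro ⟨x, ⟨hx1, hx2⟩, rfl⟩
      exact ⟨(hMn x).1 hx1, (h2 _ _).1 hx2⟩
  rw [this, Set.ncard_image_of_injective _ e.injective, hn]

theorem exists_inv (f : ℕ → ℕ) : ∃ T : RS (ℕ ⊕ ℕ), Good T ∧ Inv T = Set.range f := by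
  let b : RS ℕ :=
    { lt := fun _ _ => False
      R := fun x y => y < f x
      U := fun _ _ => False
      E := fun _ => False
      irr := fun _ h => h
      tr := fun _ _ _ h _ => h
      Um := fun _ _ h => h
      Ult := fun _ _ _ h _ => h.elim
      Elt := fun _ _ h _ => h.elim }
  obtain ⟨T, hT, hlt, hR, hU, hE, hW⟩ := free b
  refine ⟨T, hT, ?_⟩
  have hWb : ∀ p, T.W (Sum.inl p) := fun p m h => (hU m p).1 h
  have hMn : ∀ x, T.Mn x ↔ ∃ p, x = Sum.inl p := by
    intro x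
    constructor
    · rintro ⟨hx, hmin⟩
      rcases hW x hx with h | ⟨p, hp, hpx⟩
      · exact h
      · exact absurd hp (hmin _ hpx)
    · rintro ⟨p, rfl⟩
      refine ⟨hWb p, fun x hx hWx => ?_⟩
      rcases hW x hWx with ⟨q, rfl⟩ | ⟨q, hq, hqx⟩
      · exact (hlt q p).1 hx
      · exact (hlt q p).1 (T.tr _ _ _ hqx hx)
  have hset : ∀ p, {b | T.Mn b ∧ T.R (Sum.inl p) b}.ncard = f p := by
    intro p
    have : {b | T.Mn b ∧ T.R (Sum.inl p) b} = Sum.inl '' (Set.Iio (f p)) := by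
      ext y
      simp only [Set.mem_setOf_eq, Set.mem_image, Set.mem_Iio, hMn]
      constructor
      · rintro ⟨⟨q, rfl⟩, hq⟩
        exact ⟨q, (hR p q).1 hq, rfl⟩
      · rintro ⟨q, hq, rfl⟩
        exact ⟨⟨q, rfl⟩, (hR p q).2 hq⟩
    rw [this, Set.ncard_image_of_injective _ Sum.inl_injective]
    simp [Set.ncard_eq_toFinset_card']
  ext n
  constructor
  · rintro ⟨a, ha, hn⟩
    obtain ⟨p, rfl⟩ := (hMn a).1 ha
    exact ⟨p, by rw [← hn, hset]⟩
  · rintro ⟨p, rfl⟩
    exact ⟨Sum.inl p, (hMn _).2 ⟨p, rfl⟩, hset p⟩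

theorem exists_cls0 : ∃ T : RS (Empty ⊕ ℕ), Good T ∧ cls T = 0 := by
  let b : RS Empty :=
    { lt := fun _ _ => False
      R := fun _ _ => False
      U := fun _ _ => False
      E := fun _ => False
      irr := fun _ h => h
      tr := fun _ _ _ h _ => h
      Um := fun _ _ h => h
      Ult := fun _ _ _ h _ => h.elim
      Elt := fun _ _ h _ => h.elim }
  obtain ⟨T, hT, hlt, hR, hU, hE, hW⟩ := free b
  refine ⟨T, hT, ?_⟩
  unfold cls
  rw [if_pos]
  intro x hx
  rcases hW x hx with ⟨p, _⟩ | ⟨p, _⟩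
  · exact p.elim
  · exact p.elim

theorem exists_cls1 : ∃ T : RS (Unit ⊕ ℕ), Good T ∧ cls T = 1 := by
  let b : RS Unit :=
    { lt := fun _ _ => False
      R := fun _ _ => False
      U := fun _ _ => False
      E := fun _ => True
      irr := fun _ h => h
      tr := fun _ _ _ h _ => h
      Um := fun _ _ h => h
      Ult := fun _ _ _ h _ => h.elim
      Elt := fun _ _ h _ => h.elim }
  obtain ⟨T, hT, hlt, hR, hU, hE, hW⟩ := free b
  refine ⟨T, hT, ?_⟩
  unfold cls
  rw [if_neg, if_pos]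
  · intro x hx
    rcases hW x hx with ⟨p, rfl⟩ | ⟨p, _, hp⟩
    · exact (hE p).2 trivial
    · exact T.Elt _ _ hp ((hE p).2 trivial)
  · intro h
    exact h (Sum.inl ()) fun m hm => (hU m ()).1 hm

theorem exists_cls2 : ∃ T : RS (Unit ⊕ ℕ), Good T ∧ cls T = 2 := by
  let b : RS Unit :=
    { lt := fun _ _ => False
      R := fun _ _ => False
      U := fun _ _ => False
      E := fun _ => False
      irr := fun _ h => h
      tr := fun _ _ _ h _ => h
      Um := fun _ _ h => h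
      Ult := fun _ _ _ h _ => h.elim
      Elt := fun _ _ h _ => h.elim }
  obtain ⟨T, hT, hlt, hR, hU, hE, hW⟩ := free b
  refine ⟨T, hT, ?_⟩
  have hw : T.W (Sum.inl ()) := fun m hm => (hU m ()).1 hm
  unfold cls
  rw [if_neg, if_neg]
  · intro h
    exact (hE ()).1 (h _ hw)
  · intro h
    exact h _ hw

end Pool.Agent.H218.BiEmb
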